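import Pool.Agent.NFBw.Ryser

set_option autoImplicit false

namespace Pool.NFBw

open Matrix Finset

variable {N : ℕ}

/-- the coordinate vector -/
abbrev dl {K : Type*} [Zero K] [One K] {n : ℕ} (v : Fin n) : Fin n → K := Pi.single v 1

/-- incidence vector of a pair -/
def Inc {n : ℕ} (p : Fin n × Fin n) : Fin n → ZMod 2 := dl p.1 + dl p.2

/-- `ι_z(u,v) = z_u δ_v + z_v δ_u` -/
def iot {K : Type*} [CommRing K] {n : ℕ} (z : Fin n → K) (p : Fin n × Fin n) : Fin n → K :=
  z p.1 • dl p.2 + z p.2 • dl p.1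

/-- degree (with multiplicity) -/
def deg {n M : ℕ} (e : Fin M → Fin n × Fin n) (v : Fin n) : ℕ :=
  ∑ l, ((if (e l).1 = v then 1 else 0) + (if (e l).2 = v then 1 else 0))

/-- the determinant with two distinguished rows -/
def Dt {K : Type*} [CommRing K] (p q : Fin (N + 2) → K) (r : Fin N → Fin (N + 2) → K) : K :=
  Matrix.det (Matrix.of (Fin.cons (α := fun _ => Fin (N + 2) → K) p
    (Fin.cons (α := fun _ => Fin (N + 2) → K) q r)))

theorem Dt_eq {K : Type*} [CommRing K] (p q : Fin (N + 2) → K) (r : Fin N → Fin (N + 2) → K) :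
    Dt p q r = Matrix.detRowAlternating (Fin.cons (α := fun _ => Fin (N + 2) → K) p
    (Fin.cons (α := fun _ => Fin (N + 2) → K) q r)) := rfl

theorem Dt_add_left {K : Type*} [CommRing K] (p p' q : Fin (N + 2) → K)
    (r : Fin N → Fin (N + 2) → K) : Dt (p + p') q r = Dt p q r + Dt p' q r := by
  simp only [Dt_eq]
  exact MultilinearMap.cons_add (Matrix.detRowAlternating
    (n := Fin (N + 2)) (R := K)).toMultilinearMap _ p p'

theorem Dt_add_mid {K : Type*} [CommRing K] (p q q' : Fin (N + 2) → K)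
    (r : Fin N → Fin (N + 2) → K) : Dt p (q + q') r = Dt p q r + Dt p q' r := by
  have h := (Matrix.detRowAlternating (n := Fin (N + 2)) (R := K)).map_update_add
    (Fin.cons (α := fun _ => Fin (N + 2) → K) p
      (Fin.cons (α := fun _ => Fin (N + 2) → K) 0 r)) (1 : Fin (N + 2)) q q'
  have hu : ∀ t : Fin (N + 2) → K, Function.update (Fin.cons (α := fun _ => Fin (N + 2) → K) p
      (Fin.cons (α := fun _ => Fin (N + 2) → K) 0 r)) (1 : Fin (N + 2)) t
      = Fin.cons (α := fun _ => Fin (N + 2) → K) p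
      (Fin.cons (α := fun _ => Fin (N + 2) → K) t r) := by
    intro t
    have h1 : (1 : Fin (N + 2)) = Fin.succ 0 := rfl
    rw [h1, ← Fin.cons_update, Fin.update_cons_zero]
  rw [hu, hu, hu] at h
  simpa only [Dt_eq] using h

theorem Dt_update_add {K : Type*} [CommRing K] (p q : Fin (N + 2) → K)
    (r : Fin N → Fin (N + 2) → K) (i : Fin N) (t t' : Fin (N + 2) → K) :
    Dt p q (Function.update r i (t + t'))
      = Dt p q (Function.update r i t) + Dt p q (Function.update r i t') := by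
  have h := (Matrix.detRowAlternating (n := Fin (N + 2)) (R := K)).map_update_add
    (Fin.cons (α := fun _ => Fin (N + 2) → K) p
      (Fin.cons (α := fun _ => Fin (N + 2) → K) q r)) (i.succ.succ) t t'
  have hu : ∀ t : Fin (N + 2) → K, Function.update (Fin.cons (α := fun _ => Fin (N + 2) → K) p
      (Fin.cons (α := fun _ => Fin (N + 2) → K) q r)) (i.succ.succ) t
      = Fin.cons (α := fun _ => Fin (N + 2) → K) p
      (Fin.cons (α := fun _ => Fin (N + 2) → K) q (Function.update r i t)) := by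
    intro t
    rw [← Fin.cons_update, ← Fin.cons_update]
  rw [hu, hu, hu] at h
  simpa only [Dt_eq] using h

theorem Dt_eq_zero_left {K : Type*} [CommRing K] (p q : Fin (N + 2) → K)
    (r : Fin N → Fin (N + 2) → K) (i : Fin N) (h : r i = p) : Dt p q r = 0 := by
  rw [Dt_eq]
  refine AlternatingMap.map_eq_zero_of_eq _ _ (i := 0) (j := i.succ.succ) ?_ ?_
  · rw [Fin.cons_zero, Fin.cons_succ, Fin.cons_succ, h]
  · exact (Fin.succ_ne_zero _).symm

theorem Dt_eq_zero_mid {K : Type*} [CommRing K] (p q : Fin (N + 2) → K)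
    (r : Fin N → Fin (N + 2) → K) (i : Fin N) (h : r i = q) : Dt p q r = 0 := by
  rw [Dt_eq]
  refine AlternatingMap.map_eq_zero_of_eq _ _ (i := Fin.succ 0) (j := i.succ.succ) ?_ ?_
  · rw [Fin.cons_succ, Fin.cons_zero, Fin.cons_succ, Fin.cons_succ, h]
  · intro h1
    exact Fin.succ_ne_zero _ (Fin.succ_injective _ h1).symm

theorem Dt_self {K : Type*} [CommRing K] (p : Fin (N + 2) → K)
    (r : Fin N → Fin (N + 2) → K) : Dt p p r = 0 := by
  rw [Dt_eq]
  refine AlternatingMap.map_eq_zero_of_eq _ _ (i := 0) (j := Fin.succ 0) ?_ ?_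
  · rw [Fin.cons_zero, Fin.cons_succ, Fin.cons_zero]
  · exact (Fin.succ_ne_zero _).symm

theorem Dt_row_eq {K : Type*} [CommRing K] (p q : Fin (N + 2) → K)
    (r : Fin N → Fin (N + 2) → K) (i j : Fin N) (hij : i ≠ j) (h : r i = r j) : Dt p q r = 0 := by
  rw [Dt_eq]
  refine AlternatingMap.map_eq_zero_of_eq _ _ (i := i.succ.succ) (j := j.succ.succ) ?_ ?_
  · simpa only [Fin.cons_succ] using h
  · intro h1
    exact hij (Fin.succ_injective _ (Fin.succ_injective _ h1))

theorem Dt_zero_row {K : Type*} [CommRing K] (p q : Fin (N + 2) → K)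
    (r : Fin N → Fin (N + 2) → K) (i : Fin N) (h : r i = 0) : Dt p q r = 0 := by
  rw [Dt_eq]
  refine AlternatingMap.map_coord_zero _ (i := i.succ.succ) ?_
  simpa only [Fin.cons_succ] using h

/-- a zero column -/
theorem Dt_zero_col {K : Type*} [CommRing K] (p q : Fin (N + 2) → K)
    (r : Fin N → Fin (N + 2) → K) (v : Fin (N + 2)) (hp : p v = 0) (hq : q v = 0)
    (hr : ∀ l, r l v = 0) : Dt p q r = 0 := by
  refine Matrix.det_eq_zero_of_column_eq_zero v ?_
  intro k
  rw [Matrix.of_apply]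
  refine Fin.cases ?_ (fun k => ?_) k
  · exact hp
  · refine Fin.cases ?_ (fun k => ?_) k
    · exact hq
    · exact hr k

/-- rows of sum zero -/
theorem Dt_sum_zero (p q : Fin (N + 2) → ZMod 2)
    (r : Fin N → Fin (N + 2) → ZMod 2) (hp : ∑ v, p v = 0) (hq : ∑ v, q v = 0)
    (hr : ∀ l, ∑ v, r l v = 0) : Dt p q r = 0 := by
  unfold Dt
  refine Matrix.exists_mulVec_eq_zero_iff.1 ⟨fun _ => 1, ?_, ?_⟩
  · intro h
    have := congrFun h 0
    simp at this
  · funext k
    simp only [Matrix.mulVec, dotProduct, mul_one, Matrix.of_apply, Pi.zero_apply]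
    refine Fin.cases ?_ (fun k => ?_) k
    · exact hp
    · refine Fin.cases ?_ (fun k => ?_) k
      · exact hq
      · exact hr k

theorem sum_dl {n : ℕ} (v : Fin n) : ∑ u, (dl v : Fin n → ZMod 2) u = 1 := by
  simp [dl, Pi.single_apply]

theorem sum_Inc {n : ℕ} (p : Fin n × Fin n) : ∑ u, Inc p u = 0 := by
  unfold Inc
  simp only [Pi.add_apply, Finset.sum_add_distrib, sum_dl]
  decide

/-- the hyperplane identity (ii) -/
theorem Dt_hyper (R : Fin N → Fin (N + 2) → ZMod 2) (i : Fin N) (j w a b : Fin (N + 2))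
    (hi : R i = dl j + dl w) (hR : ∀ l, ∑ v, R l v = 0) :
    Dt (dl a) (dl b) R = Dt (dl w) (dl b) (Function.update R i (dl j))
      + Dt (dl w) (dl a) (Function.update R i (dl j)) := by
  have h1 : ∀ c : Fin (N + 2), Dt (dl w) (dl c) R = Dt (dl w) (dl c) (Function.update R i (dl j)) := by
    intro c
    have h := Dt_update_add (dl w) (dl c) R i (dl j) (dl w)
    rw [← hi, Function.update_eq_self] at h
    rw [h, Dt_eq_zero_left (dl w) (dl c) (Function.update R i (dl w)) i (by simp), add_zero]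
  rw [← h1, ← h1, ← Dt_add_mid]
  have h2 : Dt (dl a) (dl b) R = Dt (dl a) (dl b + dl a) R := by
    rw [Dt_add_mid, Dt_self, add_zero]
  rw [h2]
  have h3 : Dt (dl a + dl w) (dl b + dl a) R = 0 := by
    refine Dt_sum_zero _ _ _ ?_ ?_ hR
    · simp only [Pi.add_apply, Finset.sum_add_distrib, sum_dl]; decide
    · simp only [Pi.add_apply, Finset.sum_add_distrib, sum_dl]; decide
  rw [Dt_add_left] at h3
  exact CharTwo.add_eq_zero.1 h3

end Pool.NFBw
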