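import Pool.Agent.NFBw.Scale

set_option autoImplicit false

namespace Pool.NFBw

open Matrix Finset

variable {N : ℕ}

/-- internal vertices are exactly `0, ..., s-1`, no isolated vertex -/
def Cond (e : Fin N → Fin (N + 2) × Fin (N + 2)) (s : ℕ) : Prop :=
  ∀ v : Fin (N + 2), 1 ≤ deg e v ∧ (2 ≤ deg e v ↔ v.val < s)

instance (e : Fin N → Fin (N + 2) × Fin (N + 2)) (s : ℕ) : Decidable (Cond e s) := by
  unfold Cond; infer_instance

/-- the vertex number `s` -/
def vx (N s : ℕ) : Fin (N + 2) := Fin.ofNat (N + 2) s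

theorem vx_val {s : ℕ} (h : s < N + 2) : (vx N s).val = s := Nat.mod_eq_of_lt h

/-- the function of the proof -/
def F0 (e : Fin N → Fin (N + 2) × Fin (N + 2)) : ZMod 2 :=
  ∑ s ∈ Finset.Icc 1 (N - 2),
    if Cond e s then Dt (dl (vx N (s - 1))) (dl (vx N s)) (fun l => Inc (e l)) else 0

/-- colourings supported on `{v ≤ x}` -/
def Zs (N x : ℕ) : Finset (Fin (N + 2) → ZMod 2) :=
  Fintype.piFinset (fun v => if v.val ≤ x then univ else {0})

theorem sum_Zs (x : ℕ) (g : Fin (N + 2) → ℕ) :
    ∑ z ∈ Zs N x, ∏ v, z v ^ g v = if ∀ v, v.val ≤ x ↔ 1 ≤ g v then 1 else 0 := by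
  unfold Zs
  rw [← Finset.prod_univ_sum (fun v : Fin (N + 2) => if v.val ≤ x then univ else {0})
    (fun v t => (t : ZMod 2) ^ g v)]
  have h1 : ∀ v : Fin (N + 2), ∑ t ∈ (if v.val ≤ x then univ else ({0} : Finset (ZMod 2))), t ^ g v
      = if v.val ≤ x ↔ 1 ≤ g v then 1 else 0 := by
    intro v
    by_cases hv : v.val ≤ x
    · rw [if_pos hv]
      have h2 : ∑ t : ZMod 2, t ^ g v = 0 ^ g v + 1 ^ g v := by
        exact Fin.sum_univ_two (fun t : Fin 2 => (t : ZMod 2) ^ g v)
      rw [h2, one_pow]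
      by_cases hg : 1 ≤ g v
      · rw [zero_pow (by omega), zero_add, if_pos (by tauto)]
      · have : g v = 0 := by omega
        rw [this, pow_zero, if_neg (by omega)]
        decide
    · rw [if_neg hv, Finset.sum_singleton]
      by_cases hg : 1 ≤ g v
      · rw [zero_pow (by omega), if_neg (by tauto)]
      · have : g v = 0 := by omega
        rw [this, pow_zero, if_pos (by omega)]
  simp_rw [h1]
  split_ifs with h
  · exact Finset.prod_eq_one fun v _ => if_pos (h v)
  · push Not at h
    obtain ⟨v, hv⟩ := h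
    refine Finset.prod_eq_zero (Finset.mem_univ v) (if_neg ?_)
    rintro ⟨h1, h2⟩
    rcases hv with ⟨h3, h4⟩ | ⟨h3, h4⟩
    · exact absurd (h1 h3) (by omega)
    · exact absurd (h2 h4) (by omega)

/-- Ryser for the `a`-sum -/
theorem sum_a (e : Fin N → Fin (N + 2) × Fin (N + 2)) (i : Fin N) (j w x : Fin (N + 2))
    (z : Fin (N + 2) → ZMod 2) :
    ∑ a : Fin (N + 2) → ZMod 2, a w * a x * (a j *
      ∏ l ∈ univ.erase i, (a (e l).1 * z (e l).2 + a (e l).2 * z (e l).1))
      = Dt (dl w) (dl x) (Rz z e i j) := by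
  rw [← ryser_Dt]
  refine Finset.sum_congr rfl fun a _ => ?_
  have h1 : ∀ u : Fin (N + 2), ∑ v, (dl u : Fin (N + 2) → ZMod 2) v * a v = a u := by
    intro u
    simp [dl, Pi.single_apply]
  rw [h1, h1, ← Finset.mul_prod_erase _ _ (Finset.mem_univ i)]
  congr 1
  have h2 : Rz z e i j i = dl j := by
    unfold Rz
    rw [Function.update_self]
  rw [h2, h1]
  congr 1
  refine Finset.prod_congr rfl fun l hl => ?_
  have h3 : Rz z e i j l = iot z (e l) := by
    unfold Rz
    rw [Function.update_of_ne (Finset.ne_of_mem_erase hl)]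
  rw [h3]
  unfold iot
  simp only [Pi.add_apply, Pi.smul_apply, smul_eq_mul, add_mul, Finset.sum_add_distrib, mul_assoc,
    ← Finset.mul_sum, h1]
  ring

theorem cond_split (e : Fin N → Fin (N + 2) × Fin (N + 2)) (i : Fin N) (j w : Fin (N + 2))
    (hi : e i = (j, w) ∨ e i = (w, j)) (x : ℕ) (hx : x < N + 2)
    (h : Dt (dl w) (dl (vx N x)) (Rj e i j) ≠ 0) :
    (if ∀ v, v.val ≤ x ↔ 1 ≤ gx e i j w (vx N x) v then (1 : ZMod 2) else 0)
      = (if Cond e x then 1 else 0) + (if Cond e (x + 1) then 1 else 0) := by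
  obtain ⟨hwx, hjw, hjx⟩ := Dt_distinct e i j w _ h
  have hpos := deg'_pos e i j w _ h
  have hdeg : ∀ v, deg e v = deg' e i v + (if v = j ∨ v = w then 1 else 0) := by
    intro v
    rw [deg_eq e i v]
    congr 1
    by_cases h1 : v = j
    · subst h1
      rcases hi with h2 | h2 <;> rw [h2] <;> simp [hjw.symm]
    · by_cases h2 : v = w
      · subst h2
        rcases hi with h3 | h3 <;> rw [h3] <;> simp [hjw]
      · rcases hi with h3 | h3 <;> rw [h3] <;> simp [h1, h2, Ne.symm h1, Ne.symm h2]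
  -- everything off `x`
  have hoff : ∀ v, v ≠ vx N x → (1 ≤ deg e v ∧ (1 ≤ gx e i j w (vx N x) v ↔ 2 ≤ deg e v)) := by
    intro v hv
    rw [hdeg v]
    unfold gx
    by_cases h1 : v = j ∨ v = w
    · have h3 : v = j ∨ v = w ∨ v = vx N x := by tauto
      rw [if_pos h1, if_pos h3]
      omega
    · have h3 : ¬ (v = j ∨ v = w ∨ v = vx N x) := by tauto
      have h2 := hpos v h3
      rw [if_neg h1, if_neg h3]
      omega
  have hat : gx e i j w (vx N x) (vx N x) = deg e (vx N x) := by
    rw [hdeg]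
    unfold gx
    rw [if_pos (by tauto), if_neg]
    · rfl
    · rintro (h1 | h1)
      · exact hjx h1.symm
      · exact hwx h1.symm
  have hval : (vx N x).val = x := vx_val hx
  have hne : ∀ v : Fin (N + 2), v ≠ vx N x → v.val ≠ x := by
    intro v hv h1
    exact hv (Fin.ext (by rw [hval]; exact h1))
  -- the common part
  let A : Prop := ∀ v, v ≠ vx N x → (2 ≤ deg e v ↔ v.val < x)
  have e1 : (∀ v, v.val ≤ x ↔ 1 ≤ gx e i j w (vx N x) v) ↔ (A ∧ 1 ≤ deg e (vx N x)) := by
    constructor
    · intro hh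
      refine ⟨fun v hv => ?_, ?_⟩
      · rw [← (hoff v hv).2, ← hh v]
        have := hne v hv
        omega
      · rw [← hat, ← hh, hval]
    · rintro ⟨hA, h1⟩ v
      by_cases hv : v = vx N x
      · subst hv
        rw [hat, hval]
        exact ⟨fun _ => h1, fun _ => le_refl _⟩
      · rw [(hoff v hv).2, hA v hv]
        have := hne v hv
        omega
  have e2 : Cond e x ↔ (A ∧ deg e (vx N x) = 1) := by
    unfold Cond
    constructor
    · intro hh
      refine ⟨fun v _ => (hh v).2, ?_⟩
      have h1 := hh (vx N x)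
      rw [hval] at h1
      omega
    · rintro ⟨hA, h1⟩ v
      by_cases hv : v = vx N x
      · subst hv
        rw [hval]
        omega
      · exact ⟨(hoff v hv).1, hA v hv⟩
  have e3 : Cond e (x + 1) ↔ (A ∧ 2 ≤ deg e (vx N x)) := by
    unfold Cond
    constructor
    · intro hh
      refine ⟨fun v hv => ?_, ?_⟩
      · rw [(hh v).2]
        have := hne v hv
        omega
      · have h1 := hh (vx N x)
        rw [hval] at h1
        omega
    · rintro ⟨hA, h1⟩ v
      by_cases hv : v = vx N x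
      · subst hv
        rw [hval]
        omega
      · refine ⟨(hoff v hv).1, ?_⟩
        rw [hA v hv]
        have := hne v hv
        omega
  by_cases hA : A
  · by_cases h1 : deg e (vx N x) = 1
    · rw [if_pos (e1.2 ⟨hA, by omega⟩), if_pos (e2.2 ⟨hA, h1⟩),
        if_neg (fun hc => absurd (e3.1 hc).2 (by omega)), add_zero]
    · by_cases h2 : 2 ≤ deg e (vx N x)
      · rw [if_pos (e1.2 ⟨hA, by omega⟩), if_neg (fun hc => h1 (e2.1 hc).2),
          if_pos (e3.2 ⟨hA, h2⟩), zero_add]
      · rw [if_neg (fun hc => absurd (e1.1 hc).2 (by omega)),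
          if_neg (fun hc => absurd (e2.1 hc).2 h1),
          if_neg (fun hc => absurd (e3.1 hc).2 h2), add_zero]
  · rw [if_neg (fun hc => hA (e1.1 hc).1), if_neg (fun hc => hA (e2.1 hc).1),
      if_neg (fun hc => hA (e3.1 hc).1), add_zero]

theorem not_cond_zero (hN : 3 ≤ N) (e : Fin N → Fin (N + 2) × Fin (N + 2)) : ¬ Cond e 0 := by
  intro h
  have h1 : ∀ v, deg e v = 1 := by
    intro v
    have := h v
    omega
  have h2 := sum_deg e
  simp only [h1, Finset.sum_const, Finset.card_univ, Fintype.card_fin, smul_eq_mul, mul_one] at h2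
  omega

theorem not_cond_top (hN : 1 ≤ N) (e : Fin N → Fin (N + 2) × Fin (N + 2)) :
    ¬ Cond e (N - 1) := by
  intro h
  have h1 : ∀ v : Fin (N + 2), (1 + if v.val < N - 1 then 1 else 0) ≤ deg e v := by
    intro v
    have := h v
    split_ifs <;> omega
  have h2 := sum_deg e
  have h3 := Finset.sum_le_sum (fun v (_ : v ∈ (Finset.univ : Finset (Fin (N + 2)))) => h1 v)
  rw [h2, Finset.sum_add_distrib] at h3
  have h4 : ∑ v : Fin (N + 2), (if v.val < N - 1 then 1 else 0) = N - 1 := by
    rw [Fin.sum_univ_eq_sum_range (fun v => if v < N - 1 then 1 else 0) (N + 2),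
      ← Finset.sum_filter]
    simp only [Finset.sum_const, smul_eq_mul, mul_one]
    have : (Finset.range (N + 2)).filter (fun v => v < N - 1) = Finset.range (N - 1) := by
      ext v
      simp only [Finset.mem_filter, Finset.mem_range]
      omega
    rw [this, Finset.card_range]
  rw [h4] at h3
  simp only [Finset.sum_const, Finset.card_univ, Fintype.card_fin, smul_eq_mul, mul_one] at h3
  omega

/-- **(Cw)** -/
theorem Cw (hN : 3 ≤ N) (e : Fin N → Fin (N + 2) × Fin (N + 2)) (i : Fin N) (j w : Fin (N + 2))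
    (hi : e i = (j, w) ∨ e i = (w, j)) (_hjw : j ≠ w) :
    F0 e = ∑ x ∈ Finset.range (N - 1), ∑ z ∈ Zs N x, ∑ a : Fin (N + 2) → ZMod 2,
      a w * a (vx N x) * (a j *
        ∏ l ∈ univ.erase i, (a (e l).1 * z (e l).2 + a (e l).2 * z (e l).1)) := by
  -- right side
  have hR : ∀ x ∈ Finset.range (N - 1), (∑ z ∈ Zs N x, ∑ a : Fin (N + 2) → ZMod 2,
      a w * a (vx N x) * (a j *
        ∏ l ∈ univ.erase i, (a (e l).1 * z (e l).2 + a (e l).2 * z (e l).1)))
      = (if Cond e x then Dt (dl w) (dl (vx N x)) (Rj e i j) else 0)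
        + (if Cond e (x + 1) then Dt (dl w) (dl (vx N x)) (Rj e i j) else 0) := by
    intro x hx
    rw [Finset.mem_range] at hx
    simp_rw [sum_a, Dt_scale]
    rw [← Finset.mul_sum, sum_Zs]
    by_cases h0 : Dt (dl w) (dl (vx N x)) (Rj e i j) = 0
    · rw [h0]
      simp
    · rw [cond_split e i j w hi x (by omega) h0]
      rw [mul_add, mul_ite, mul_ite, mul_one, mul_zero]
  rw [Finset.sum_congr rfl hR, Finset.sum_add_distrib]
  -- left side
  have hInc : Inc (e i) = dl j + dl w := by
    unfold Inc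
    rcases hi with h | h
    · rw [h]
    · rw [h]
      exact add_comm _ _
  have hL : F0 e = ∑ s ∈ Finset.Icc 1 (N - 2),
      ((if Cond e s then Dt (dl w) (dl (vx N s)) (Rj e i j) else 0)
        + (if Cond e s then Dt (dl w) (dl (vx N (s - 1))) (Rj e i j) else 0)) := by
    unfold F0
    refine Finset.sum_congr rfl fun s _ => ?_
    by_cases hc : Cond e s
    · simp only [if_pos hc]
      exact Dt_hyper (fun l => Inc (e l)) i j w _ _ hInc (fun l => sum_Inc (e l))
    · simp only [if_neg hc, add_zero]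
  rw [hL, Finset.sum_add_distrib]
  congr 1
  · -- first sums: the term x = 0 vanishes
    have h1 : Finset.range (N - 1) = insert 0 (Finset.Icc 1 (N - 2)) := by
      ext x
      simp only [Finset.mem_range, Finset.mem_insert, Finset.mem_Icc]
      omega
    rw [h1, Finset.sum_insert (by simp), if_neg (not_cond_zero hN e), zero_add]
  · -- second sums: the term x = N - 2 vanishes
    have h1 : N - 1 = (N - 2) + 1 := by omega
    rw [h1, Finset.sum_range_succ, if_neg (by rw [← h1]; exact not_cond_top (by omega) e), add_zero]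
    have h2 := Finset.sum_Ico_add' (fun s => if Cond e s then
      Dt (dl w) (dl (vx N (s - 1))) (Rj e i j) else 0) 0 (N - 2) 1
    simp only [Nat.add_sub_cancel] at h2
    rw [Finset.range_eq_Ico, h2]
    refine Finset.sum_congr ?_ fun _ _ => rfl
    ext x
    simp only [Finset.mem_Icc, Finset.mem_Ico]
    omega

end Pool.NFBw
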