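import Mathlib

set_option autoImplicit false

namespace Pool.NFBw

open Matrix Finset

/-- A sum over all 0/1 functions of a function invariant under flipping one coordinate is zero. -/
theorem sum_flip_eq_zero {V : Type*} [Fintype V] [DecidableEq V] (j0 : V) (F : (V → ZMod 2) → ZMod 2)
    (h : ∀ a, F (a + Pi.single j0 1) = F a) : ∑ a : V → ZMod 2, F a = 0 := by
  classical
  refine Finset.sum_involution (fun a _ => a + Pi.single j0 1) ?_ ?_ ?_ ?_
  · intro a _
    rw [h a]
    exact CharTwo.add_self_eq_zero _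
  · intro a _ _ h1
    have h2 := congrFun h1 j0
    simp at h2
  · intro a _
    exact Finset.mem_univ _
  · intro a _
    have : (Pi.single j0 1 : V → ZMod 2) + Pi.single j0 1 = 0 := by
      funext v
      exact CharTwo.add_self_eq_zero _
    rw [add_assoc, this, add_zero]

theorem sum_prod_comp {V : Type*} [Fintype V] [DecidableEq V] (x : V → V) :
    ∑ a : V → ZMod 2, ∏ i, a (x i) = if Function.Bijective x then 1 else 0 := by
  classical
  split_ifs with hx
  · have h1 : ∀ a : V → ZMod 2, ∏ i, a (x i) = ∏ i, a i := fun a =>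
      Function.Bijective.prod_comp hx a
    simp_rw [h1]
    have h2 := Finset.prod_univ_sum (fun _ : V => (Finset.univ : Finset (ZMod 2))) (fun _ t => t)
    rw [Fintype.piFinset_univ] at h2
    rw [← h2]
    have h3 : ∑ t : ZMod 2, t = 1 := by decide
    simp [h3]
  · have hs : ¬ Function.Surjective x := fun hs =>
      hx ⟨Finite.injective_iff_surjective.2 hs, hs⟩
    rw [Function.Surjective] at hs
    push Not at hs
    obtain ⟨j0, hj0⟩ := hs
    refine sum_flip_eq_zero j0 _ ?_
    intro a
    refine Finset.prod_congr rfl fun i _ => ?_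
    rw [Pi.add_apply, Pi.single_eq_of_ne (hj0 i), add_zero]

/-- Ryser's formula modulo 2. -/
theorem ryser {V : Type*} [Fintype V] [DecidableEq V] (M : Matrix V V (ZMod 2)) :
    ∑ a : V → ZMod 2, ∏ i, ∑ j, M i j * a j = M.det := by
  classical
  have h1 : ∀ a : V → ZMod 2, ∏ i, ∑ j, M i j * a j
      = ∑ x : V → V, (∏ i, M i (x i)) * ∏ i, a (x i) := by
    intro a
    have h2 := Finset.prod_univ_sum (fun _ : V => (Finset.univ : Finset V)) (fun i j => M i j * a j)
    rw [Fintype.piFinset_univ] at h2
    rw [h2]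
    refine Finset.sum_congr rfl fun x _ => ?_
    rw [Finset.prod_mul_distrib]
  simp_rw [h1]
  rw [Finset.sum_comm]
  simp_rw [← Finset.mul_sum, sum_prod_comp]
  rw [Matrix.det_apply]
  have h3 : ∀ σ : Equiv.Perm V, Equiv.Perm.sign σ • ∏ i, M (σ i) i = ∏ i, M (σ i) i := by
    intro σ
    rcases Int.units_eq_one_or (Equiv.Perm.sign σ) with h | h
    · rw [h, one_smul]
    · rw [h]
      simp only [Units.neg_smul, one_smul]
      exact CharTwo.neg_eq _
  simp_rw [h3]
  simp only [mul_ite, mul_one, mul_zero]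
  rw [← Finset.sum_filter]
  symm
  refine Finset.sum_bij' (fun σ _ => (⇑(σ⁻¹) : V → V))
    (fun x hx => (Equiv.ofBijective x (Finset.mem_filter.1 hx).2)⁻¹) ?_ ?_ ?_ ?_ ?_
  · intro σ _
    rw [Finset.mem_filter]
    exact ⟨Finset.mem_univ _, (σ⁻¹).bijective⟩
  · intro x _
    exact Finset.mem_univ _
  · intro σ _
    apply Equiv.ext
    intro v
    rw [Equiv.Perm.inv_def, Equiv.symm_apply_eq]
    simp
  · intro x hx
    funext v
    simp
  · intro σ _
    rw [← Equiv.prod_comp σ (fun i => M i (σ⁻¹ i))]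
    simp

end Pool.NFBw
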