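import Pool.Agent.NFBw.Cw

set_option autoImplicit false

namespace Pool.NFBw

open Matrix Finset

variable {N : ℕ}

/-- Ryser for the determinant with two distinguished rows -/
theorem ryser_Dt (p q : Fin (N + 2) → ZMod 2) (r : Fin N → Fin (N + 2) → ZMod 2) :
    ∑ a : Fin (N + 2) → ZMod 2, (∑ v, p v * a v) * (∑ v, q v * a v) * ∏ l, ∑ v, r l v * a v
      = Dt p q r := by
  unfold Dt
  rw [← ryser]
  refine Finset.sum_congr rfl fun a _ => ?_
  rw [Fin.prod_univ_succ, Fin.prod_univ_succ, mul_assoc]
  rfl

/-- row scaling: the determinant with rows scaled by `ρ` -/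
theorem Dt_smul {K : Type*} [CommRing K] (a b : K) (ρ : Fin N → K) (p q : Fin (N + 2) → K)
    (r : Fin N → Fin (N + 2) → K) :
    Dt (a • p) (b • q) (fun l => ρ l • r l) = a * b * (∏ l, ρ l) * Dt p q r := by
  have h := (Matrix.detRowAlternating (n := Fin (N + 2)) (R := K)).map_smul_univ
    (Fin.cons (α := fun _ => K) a (Fin.cons (α := fun _ => K) b ρ))
    (Fin.cons (α := fun _ => Fin (N + 2) → K) p (Fin.cons (α := fun _ => Fin (N + 2) → K) q r))
  rw [Dt_eq, Dt_eq]
  have h1 : (fun i => (Fin.cons (α := fun _ => K) a (Fin.cons (α := fun _ => K) b ρ)) i •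
      (Fin.cons (α := fun _ => Fin (N + 2) → K) p
        (Fin.cons (α := fun _ => Fin (N + 2) → K) q r)) i)
      = Fin.cons (α := fun _ => Fin (N + 2) → K) (a • p)
        (Fin.cons (α := fun _ => Fin (N + 2) → K) (b • q) (fun l => ρ l • r l)) := by
    funext i
    refine Fin.cases rfl (fun k => ?_) i
    refine Fin.cases rfl (fun k => ?_) k
    rfl
  rw [h1] at h
  rw [h, Fin.prod_univ_succ, Fin.prod_univ_succ, smul_eq_mul, mul_assoc a b]
  rfl

/-- column scaling -/
theorem Dt_mul_col {K : Type*} [CommRing K] (x : Fin (N + 2) → K) (p q : Fin (N + 2) → K)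
    (r : Fin N → Fin (N + 2) → K) :
    Dt (fun v => p v * x v) (fun v => q v * x v) (fun l v => r l v * x v)
      = Dt p q r * ∏ v, x v := by
  unfold Dt
  rw [← Matrix.det_diagonal, ← Matrix.det_mul]
  congr 1
  funext k v
  rw [Matrix.mul_diagonal, Matrix.of_apply, Matrix.of_apply]
  refine Fin.cases rfl (fun k => ?_) k
  refine Fin.cases rfl (fun k => ?_) k
  rfl

theorem Dt_map {K L : Type*} [CommRing K] [CommRing L] (f : K →+* L) (p q : Fin (N + 2) → K)
    (r : Fin N → Fin (N + 2) → K) :
    f (Dt p q r) = Dt (fun v => f (p v)) (fun v => f (q v)) (fun l v => f (r l v)) := by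
  unfold Dt
  rw [RingHom.map_det]
  congr 1
  funext k v
  rw [RingHom.mapMatrix_apply, Matrix.map_apply, Matrix.of_apply, Matrix.of_apply]
  refine Fin.cases rfl (fun k => ?_) k
  refine Fin.cases rfl (fun k => ?_) k
  rfl

/-- the degree without the edge `i` -/
def deg' (e : Fin N → Fin (N + 2) × Fin (N + 2)) (i : Fin N) (v : Fin (N + 2)) : ℕ :=
  ∑ l ∈ univ.erase i, ((if (e l).1 = v then 1 else 0) + (if (e l).2 = v then 1 else 0))

theorem deg_eq (e : Fin N → Fin (N + 2) × Fin (N + 2)) (i : Fin N) (v : Fin (N + 2)) :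
    deg e v = deg' e i v + ((if (e i).1 = v then 1 else 0) + (if (e i).2 = v then 1 else 0)) := by
  unfold deg deg'
  rw [Finset.sum_erase_add _ _ (Finset.mem_univ i)]

theorem sum_deg (e : Fin N → Fin (N + 2) × Fin (N + 2)) : ∑ v, deg e v = 2 * N := by
  unfold deg
  rw [Finset.sum_comm]
  simp only [Finset.sum_add_distrib, Finset.sum_ite_eq, Finset.mem_univ, if_true]
  simp
  ring

/-- the exponent -/
def gx (e : Fin N → Fin (N + 2) × Fin (N + 2)) (i : Fin N) (j w x v : Fin (N + 2)) : ℕ :=
  if v = j ∨ v = w ∨ v = x then deg' e i v else deg' e i v - 1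

/-- the rows `Inc e_l`, the `i`-th replaced by `δ_j` -/
def Rj (e : Fin N → Fin (N + 2) × Fin (N + 2)) (i : Fin N) (j : Fin (N + 2)) :
    Fin N → Fin (N + 2) → ZMod 2 := Function.update (fun l => Inc (e l)) i (dl j)

def Rz {K : Type*} [CommRing K] (z : Fin (N + 2) → K)
    (e : Fin N → Fin (N + 2) × Fin (N + 2)) (i : Fin N) (j : Fin (N + 2)) :
    Fin N → Fin (N + 2) → K := Function.update (fun l => iot z (e l)) i (dl j)

theorem Dt_distinct (e : Fin N → Fin (N + 2) × Fin (N + 2)) (i : Fin N) (j w x : Fin (N + 2))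
    (h : Dt (dl w) (dl x) (Rj e i j) ≠ 0) : w ≠ x ∧ j ≠ w ∧ j ≠ x := by
  refine ⟨?_, ?_, ?_⟩
  · rintro rfl
    exact h (Dt_self _ _)
  · rintro rfl
    exact h (Dt_eq_zero_left _ _ _ i (by simp [Rj]))
  · rintro rfl
    exact h (Dt_eq_zero_mid _ _ _ i (by simp [Rj]))

theorem deg'_pos (e : Fin N → Fin (N + 2) × Fin (N + 2)) (i : Fin N) (j w x : Fin (N + 2))
    (h : Dt (dl w) (dl x) (Rj e i j) ≠ 0) (v : Fin (N + 2)) (hv : ¬ (v = j ∨ v = w ∨ v = x)) :
    1 ≤ deg' e i v := by
  by_contra hc
  push Not at hv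
  obtain ⟨hj, hw, hx⟩ := hv
  have h0 : deg' e i v = 0 := by omega
  apply h
  refine Dt_zero_col _ _ _ v ?_ ?_ ?_
  · exact Pi.single_eq_of_ne hw _
  · exact Pi.single_eq_of_ne hx _
  · intro l
    unfold Rj
    by_cases hl : l = i
    · subst hl
      rw [Function.update_self]
      exact Pi.single_eq_of_ne hj _
    · rw [Function.update_of_ne hl]
      unfold deg' at h0
      rw [Finset.sum_eq_zero_iff] at h0
      have h1 := h0 l (Finset.mem_erase.2 ⟨hl, Finset.mem_univ _⟩)
      have h2 : (e l).1 ≠ v := by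
        intro h3
        rw [if_pos h3] at h1
        omega
      have h3 : (e l).2 ≠ v := by
        intro h3
        rw [if_pos h3] at h1
        omega
      unfold Inc
      rw [Pi.add_apply]
      unfold dl
      rw [Pi.single_eq_of_ne h2.symm, Pi.single_eq_of_ne h3.symm, add_zero]

/-- polynomial identity -/
theorem prod_rho {K : Type*} [CommRing K] (X : Fin (N + 2) → K)
    (e : Fin N → Fin (N + 2) × Fin (N + 2)) (i : Fin N) :
    ∏ l ∈ univ.erase i, (X (e l).1 * X (e l).2) = ∏ v, X v ^ deg' e i v := by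
  unfold deg'
  simp only [← Finset.prod_pow_eq_pow_sum]
  rw [Finset.prod_comm]
  refine Finset.prod_congr rfl fun l _ => ?_
  simp only [pow_add, Finset.prod_mul_distrib, pow_ite, pow_one, pow_zero,
    Finset.prod_ite_eq, Finset.mem_univ, if_true]

theorem Dt_scale (e : Fin N → Fin (N + 2) × Fin (N + 2)) (i : Fin N) (j w x : Fin (N + 2))
    (z : Fin (N + 2) → ZMod 2) :
    Dt (dl w) (dl x) (Rz z e i j) = Dt (dl w) (dl x) (Rj e i j) * ∏ v, z v ^ gx e i j w x v := by
  classical
  set K := MvPolynomial (Fin (N + 2)) (ZMod 2)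
  set X : Fin (N + 2) → K := MvPolynomial.X
  -- the polynomial determinant
  set P : K := Dt (dl w) (dl x) (Rz X e i j) with hP
  -- scaling the columns
  have h1 : P * ∏ v, X v = (X w * X x * (X j * ∏ v, X v ^ deg' e i v)) *
      MvPolynomial.C (Dt (dl w) (dl x) (Rj e i j)) := by
    rw [hP, ← Dt_mul_col, Dt_map]
    have h2 := Dt_smul (X w) (X x)
      (fun l => if l = i then X j else X (e l).1 * X (e l).2)
      (fun v => MvPolynomial.C ((dl w : Fin (N + 2) → ZMod 2) v) : Fin (N + 2) → K)
      (fun v => MvPolynomial.C ((dl x : Fin (N + 2) → ZMod 2) v) : Fin (N + 2) → K)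
      (fun l v => MvPolynomial.C (Rj e i j l v))
    have h3 : (∏ l, if l = i then X j else X (e l).1 * X (e l).2)
        = X j * ∏ v, X v ^ deg' e i v := by
      rw [← prod_rho, ← Finset.mul_prod_erase _ _ (Finset.mem_univ i), if_pos rfl]
      congr 1
      refine Finset.prod_congr rfl fun l hl => ?_
      rw [if_neg (Finset.ne_of_mem_erase hl)]
    rw [h3] at h2
    rw [← h2]
    have hd : ∀ u v : Fin (N + 2), (dl u : Fin (N + 2) → K) v * X v
        = X u * MvPolynomial.C ((dl u : Fin (N + 2) → ZMod 2) v) := by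
      intro u v
      by_cases huv : v = u
      · subst huv
        simp [dl]
      · simp [dl, Pi.single_eq_of_ne huv]
    congr 1
    · funext v
      exact hd w v
    · funext v
      exact hd x v
    · funext l v
      by_cases hl : l = i
      · subst hl
        simp only [Rz, Rj, Function.update_self, if_true, Pi.smul_apply, smul_eq_mul]
        exact hd j v
      · simp only [Rz, Rj, Function.update_of_ne hl, if_neg hl, Pi.smul_apply, smul_eq_mul,
          iot, Inc, Pi.add_apply, map_add, mul_add, add_mul]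
        have h5 := hd (e l).1 v
        have h6 := hd (e l).2 v
        rw [mul_assoc, mul_assoc, h5, h6]
        ring
  have hX : ∏ v, X v ≠ 0 := Finset.prod_ne_zero_iff.2 fun v _ => MvPolynomial.X_ne_zero v
  have hev : MvPolynomial.eval z P = Dt (dl w) (dl x) (Rz z e i j) := by
    have hd : ∀ u v : Fin (N + 2), MvPolynomial.eval z ((dl u : Fin (N + 2) → K) v)
        = (dl u : Fin (N + 2) → ZMod 2) v := by
      intro u v
      by_cases huv : v = u
      · subst huv
        simp [dl]
      · simp [dl, Pi.single_eq_of_ne huv]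
    rw [hP, Dt_map]
    congr 1
    · funext v
      exact hd w v
    · funext v
      exact hd x v
    · funext l v
      by_cases hl : l = i
      · subst hl
        simp only [Rz, Function.update_self]
        exact hd j v
      · simp only [Rz, Function.update_of_ne hl, iot, Pi.add_apply, Pi.smul_apply, smul_eq_mul,
          map_add, map_mul, hd]
        simp [X]
  by_cases h0 : Dt (dl w) (dl x) (Rj e i j) = 0
  · rw [h0, zero_mul]
    rw [h0, map_zero, mul_zero] at h1
    have h2 : P = 0 := (mul_eq_zero.1 h1).resolve_right hX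
    rw [← hev, h2, map_zero]
  · obtain ⟨hwx, hjw, hjx⟩ := Dt_distinct e i j w x h0
    have hpos := deg'_pos e i j w x h0
    have h2 : (X w * X x * (X j * ∏ v, X v ^ deg' e i v))
        = (∏ v, X v ^ gx e i j w x v) * ∏ v, X v := by
      have h3 : X w * X x * X j = ∏ v, X v ^ (if v = j ∨ v = w ∨ v = x then 1 else 0) := by
        rw [← Finset.prod_filter_mul_prod_filter_not univ (fun v => v = j ∨ v = w ∨ v = x)]
        have h4 : ∏ v ∈ univ.filter (fun v => ¬ (v = j ∨ v = w ∨ v = x)),
            X v ^ (if v = j ∨ v = w ∨ v = x then 1 else 0) = 1 := by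
          refine Finset.prod_eq_one fun v hv => ?_
          rw [if_neg (Finset.mem_filter.1 hv).2, pow_zero]
        rw [h4, mul_one]
        have h5 : univ.filter (fun v => v = j ∨ v = w ∨ v = x) = {w, x, j} := by
          ext v
          simp only [Finset.mem_filter, Finset.mem_univ, true_and, Finset.mem_insert,
            Finset.mem_singleton]
          tauto
        rw [h5, Finset.prod_insert, Finset.prod_insert, Finset.prod_singleton]
        · simp [mul_assoc]
        · simp only [Finset.mem_singleton]; exact fun h => hjx h.symm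
        · simp only [Finset.mem_insert, Finset.mem_singleton]
          rintro (h | h)
          · exact hwx h
          · exact hjw h.symm
      rw [← mul_assoc, h3, ← Finset.prod_mul_distrib, ← Finset.prod_mul_distrib]
      refine Finset.prod_congr rfl fun v _ => ?_
      unfold gx
      by_cases hv : v = j ∨ v = w ∨ v = x
      · rw [if_pos hv, if_pos hv]
        ring
      · rw [if_neg hv, if_neg hv, pow_zero, one_mul, ← pow_succ]
        congr 1
        have := hpos v hv
        omega
    rw [h2, mul_right_comm] at h1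
    have h3 := mul_right_cancel₀ hX h1
    rw [← hev, h3]
    simp only [map_mul, map_prod, map_pow, MvPolynomial.eval_C]
    rw [mul_comm]
    simp [X]

end Pool.NFBw
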